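import Mathlib
import Pool.Agent.W745.Fib.Stm

/-!
Part (A): the trace polynomials have no critical points in the plane off `λ = 0`.
-/

set_option autoImplicit false

open Matrix

namespace Pool.Agent.W112.FM

open Pool.Agent.W745.Fib

abbrev Mt := Matrix (Fin 2) (Fin 2) ℝ

/-- transfer matrices -/
def Mm (lam E : ℝ) : ℕ → Mt
  | 0 => !![1, -lam; 0, 1]
  | 1 => !![E, -1; 1, 0]
  | j + 2 => Mm lam E j * Mm lam E (j + 1)

lemma Mm_succ (lam E : ℝ) (j : ℕ) : Mm lam E (j + 2) = Mm lam E j * Mm lam E (j + 1) := rfl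

lemma det_Mm (lam E : ℝ) (j : ℕ) : (Mm lam E j).det = 1 := by
  have : (Mm lam E j).det = 1 ∧ (Mm lam E (j + 1)).det = 1 := by
    induction j with
    | zero => constructor <;> simp [Mm, Matrix.det_fin_two]
    | succ j ih =>
      refine ⟨ih.2, ?_⟩
      rw [Mm_succ, Matrix.det_mul, ih.1, ih.2, mul_one]
  exact this.1

lemma trace_BAB (A B : Mt) : (B * (A * B)).trace = (A * B).trace * B.trace - B.det * A.trace := by
  simp [Matrix.trace_fin_two, Matrix.mul_apply, Fin.sum_univ_two, Matrix.det_fin_two]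
  ring

lemma trace_Mm (lam E : ℝ) (j : ℕ) : (Mm lam E j).trace = 2 * tr lam j E := by
  revert j
  apply ind3
  · simp [Mm, Matrix.trace_fin_two, tr_zero]; norm_num
  · simp [Mm, Matrix.trace_fin_two, tr_one]; ring
  · simp [Mm, Matrix.trace_fin_two, tr_two]; ring
  · intro j h0 h1 h2
    rw [show j + 3 = (j + 1) + 2 by ring, Mm_succ]
    rw [show j + 1 + 1 = j + 2 by ring, Mm_succ, trace_BAB, ← Mm_succ, h0, h1, h2, det_Mm,
      show j + 1 + 2 = j + 3 by ring, tr_rec]
    ring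

/-- the linearised recursion for traces -/
lemma trace_lin (A B a u : Mt) (hu : u.trace = 0) (hB : B.det = 1) :
    ((u * B) * (A * B) + B * (a * B + A * (u * B))).trace =
      (a * B + A * (u * B)).trace * B.trace + (A * B).trace * (u * B).trace - a.trace := by
  have h1 : u 1 1 = - u 0 0 := by
    have := hu
    rw [Matrix.trace_fin_two] at this
    linarith
  rw [Matrix.det_fin_two] at hB
  simp only [Matrix.trace_fin_two, Matrix.mul_apply, Fin.sum_univ_two, Matrix.add_apply, h1]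
  linear_combination (-(a 0 0 + a 1 1)) * hB

/-- downward recursion of positive definite matrices -/
noncomputable def Tt (lam E : ℝ) (n : ℕ) : ℕ → Mt
  | 0 => 0
  | 1 => 1
  | i + 2 => Tt lam E n i + Mm lam E (n - (i + 2)) * Tt lam E n (i + 1) * (Mm lam E (n - (i + 2)))ᵀ

lemma Tt_succ (lam E : ℝ) (n i : ℕ) : Tt lam E n (i + 2) = Tt lam E n i +
    Mm lam E (n - (i + 2)) * Tt lam E n (i + 1) * (Mm lam E (n - (i + 2)))ᵀ := rfl

/-- positivity -/
def Ps (T : Mt) : Prop := T 1 0 = T 0 1 ∧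
  ∀ x y : ℝ, (x ≠ 0 ∨ y ≠ 0) → 0 < T 0 0 * x ^ 2 + 2 * T 0 1 * (x * y) + T 1 1 * y ^ 2

/-- semipositivity -/
def Pn (T : Mt) : Prop := T 1 0 = T 0 1 ∧
  ∀ x y : ℝ, 0 ≤ T 0 0 * x ^ 2 + 2 * T 0 1 * (x * y) + T 1 1 * y ^ 2

lemma Ps.pn {T : Mt} (h : Ps T) : Pn T := by
  refine ⟨h.1, fun x y => ?_⟩
  by_cases hx : x ≠ 0 ∨ y ≠ 0
  · exact (h.2 x y hx).le
  · push Not at hx
    simp [hx.1, hx.2]

lemma Ps_step {T T' M : Mt} (hT : Pn T) (hT' : Ps T') (hM : M.det = 1) :
    Ps (T + M * T' * Mᵀ) := by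
  rw [Matrix.det_fin_two] at hM
  obtain ⟨s, p⟩ := hT
  obtain ⟨s', p'⟩ := hT'
  refine ⟨?_, fun x y hxy => ?_⟩
  · simp only [Matrix.add_apply, Matrix.mul_apply, Fin.sum_univ_two, Matrix.transpose_apply, s, s']
    ring
  · have h2 : (M 0 0 * x + M 1 0 * y ≠ 0 ∨ M 0 1 * x + M 1 1 * y ≠ 0) := by
      by_contra hcon
      push Not at hcon
      have e1 : x = 0 := by linear_combination (-x) * hM + M 1 1 * hcon.1 - M 1 0 * hcon.2
      have e2 : y = 0 := by linear_combination (-y) * hM - M 0 1 * hcon.1 + M 0 0 * hcon.2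
      rcases hxy with h | h
      · exact h e1
      · exact h e2
    have h3 := p' _ _ h2
    have h4 := p x y
    simp only [Matrix.add_apply, Matrix.mul_apply, Fin.sum_univ_two, Matrix.transpose_apply, s']
    nlinarith [h3, h4]

lemma Tt_pos (lam E : ℝ) (n i : ℕ) : Pn (Tt lam E n i) ∧ Ps (Tt lam E n (i + 1)) := by
  induction i with
  | zero =>
    refine ⟨⟨by simp [Tt], fun x y => by simp [Tt]⟩, ⟨by simp [Tt], fun x y hxy => ?_⟩⟩
    simp only [Tt, Nat.zero_add, Matrix.one_apply_eq, Fin.isValue, ne_eq, zero_ne_one,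
      not_false_eq_true, Matrix.one_apply_ne, mul_zero, zero_mul, add_zero, one_mul]
    rcases hxy with h | h
    · have := sq_nonneg y
      positivity
    · have := sq_nonneg x
      positivity
  | succ i ih =>
    exact ⟨ih.2.pn, Ps_step ih.1 ih.2 (det_Mm lam E _)⟩

def J2 : Mt := !![0, 1; -1, 0]

/-- the traceless matrices, downwards -/
noncomputable def Uu (lam E : ℝ) (n i : ℕ) : Mt := (-1 : ℝ) ^ i • (Tt lam E n i * J2)

lemma trace_Uu (lam E : ℝ) (n i : ℕ) : (Uu lam E n i).trace = 0 := by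
  have h := (Tt_pos lam E n i).1.1
  simp only [Uu, J2, Matrix.trace_fin_two, Matrix.smul_apply, Matrix.mul_apply, Fin.sum_univ_two,
    smul_eq_mul]
  simp [h]

lemma Uu_rel (lam E : ℝ) (j i : ℕ) : Uu lam E (j + 2 + i) i * Mm lam E j =
    Uu lam E (j + 2 + i) (i + 2) * Mm lam E j + Mm lam E j * Uu lam E (j + 2 + i) (i + 1) := by
  have hd := det_Mm lam E j
  rw [Matrix.det_fin_two] at hd
  have hT : Tt lam E (j + 2 + i) (i + 2) = Tt lam E (j + 2 + i) i +
    Mm lam E j * Tt lam E (j + 2 + i) (i + 1) * (Mm lam E j)ᵀ := by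
    rw [Tt_succ]
    rw [show j + 2 + i - (i + 2) = j by omega]
  have hk : (Mm lam E j)ᵀ * J2 * Mm lam E j = J2 := by
    ext a b
    fin_cases a <;> fin_cases b <;>
      simp [J2, Matrix.mul_apply, Fin.sum_univ_two] <;> linarith
  have e : Uu lam E (j + 2 + i) (i + 2) * Mm lam E j =
      (-1 : ℝ) ^ i • (Tt lam E (j + 2 + i) i * J2) * Mm lam E j +
      (-1 : ℝ) ^ i • (Mm lam E j * (Tt lam E (j + 2 + i) (i + 1) * J2)) := by
    have e1 : Uu lam E (j + 2 + i) (i + 2) = (-1 : ℝ) ^ i • (Tt lam E (j + 2 + i) (i + 2) * J2) := by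
      unfold Uu
      rw [pow_add]; norm_num
    rw [e1, hT, Matrix.add_mul, smul_add, Matrix.add_mul]
    congr 1
    rw [Matrix.smul_mul]
    congr 1
    calc Mm lam E j * Tt lam E (j + 2 + i) (i + 1) * (Mm lam E j)ᵀ * J2 * Mm lam E j
        = Mm lam E j * Tt lam E (j + 2 + i) (i + 1) * ((Mm lam E j)ᵀ * J2 * Mm lam E j) := by
          simp only [Matrix.mul_assoc]
      _ = _ := by rw [hk]; simp only [Matrix.mul_assoc]
  rw [e]
  unfold Uu
  rw [pow_succ, Matrix.mul_smul]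
  simp only [mul_neg, mul_one, neg_smul]
  rw [Matrix.smul_mul]
  abel

/-- the linearised recursion at one place -/
def Lin (lam E : ℝ) (x : ℕ → ℝ) (j : ℕ) : Prop :=
  x (j + 3) = 2 * x (j + 2) * tr lam (j + 1) E + 2 * tr lam (j + 2) E * x (j + 1) - x j

lemma exists_xi (lam E : ℝ) (hl : lam ≠ 0) (n : ℕ) (hn : 1 ≤ n) :
    ∃ x : ℕ → ℝ, (∀ j, j + 3 ≤ n → Lin lam E x j) ∧ x n = 0 ∧ x 0 ≠ 0 := by
  refine ⟨fun j => (1 / 2) * (Uu lam E n (n - j) * Mm lam E j).trace, ?_, ?_, ?_⟩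
  · intro j hj
    obtain ⟨i, rfl⟩ := Nat.exists_eq_add_of_le hj
    unfold Lin
    have s0 : j + 3 + i - j = i + 3 := by omega
    have s1 : j + 3 + i - (j + 1) = i + 2 := by omega
    have s2 : j + 3 + i - (j + 2) = i + 1 := by omega
    have s3 : j + 3 + i - (j + 3) = i := by omega
    simp only [s0, s1, s2, s3]
    have r1 := Uu_rel lam E j (i + 1)
    rw [show j + 2 + (i + 1) = j + 3 + i by ring, show i + 1 + 2 = i + 3 by ring,
      show i + 1 + 1 = i + 2 by ring] at r1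
    have r2 := Uu_rel lam E (j + 1) i
    rw [show j + 1 + 2 + i = j + 3 + i by ring] at r2
    set A := Mm lam E j with hA
    set B := Mm lam E (j + 1) with hB
    have hAB : Mm lam E (j + 2) = A * B := rfl
    have hBAB : Mm lam E (j + 3) = B * (A * B) := rfl
    set a := Uu lam E (j + 3 + i) (i + 3) * A with ha
    set u := Uu lam E (j + 3 + i) (i + 2) with hu
    set v := Uu lam E (j + 3 + i) (i + 1) with hv
    have htu : u.trace = 0 := trace_Uu _ _ _ _
    have hdB : B.det = 1 := det_Mm _ _ _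
    have k1 : v * (A * B) = a * B + A * (u * B) := by
      rw [← Matrix.mul_assoc, r1, Matrix.add_mul, Matrix.mul_assoc A u B]
    have k2 : Uu lam E (j + 3 + i) i * (B * (A * B)) = (u * B) * (A * B) + B * (a * B + A * (u * B)) := by
      rw [← Matrix.mul_assoc, r2, Matrix.add_mul, Matrix.mul_assoc B v (A * B), k1]
    have tB : B.trace = 2 * tr lam (j + 1) E := trace_Mm _ _ _
    have tAB : (A * B).trace = 2 * tr lam (j + 2) E := by rw [← hAB]; exact trace_Mm _ _ _
    rw [hAB, hBAB, k1, k2, trace_lin A B a u htu hdB, tB, tAB]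
    ring
  · simp [Uu, Tt]
  · obtain ⟨m, rfl⟩ : ∃ m, n = m + 1 := ⟨n - 1, by omega⟩
    have hp := (Tt_pos lam E (m + 1) m).2
    have h1 := hp.2 0 1 (Or.inr one_ne_zero)
    have h2 : 0 < Tt lam E (m + 1) (m + 1) 1 1 := by simpa using h1
    have e : (Uu lam E (m + 1) (m + 1 - 0) * Mm lam E 0).trace =
        (-1 : ℝ) ^ (m + 1) * (lam * Tt lam E (m + 1) (m + 1) 1 1) := by
      simp only [Nat.sub_zero, Uu, J2, Mm, Matrix.trace_fin_two, Matrix.smul_apply, Matrix.mul_apply,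
        Fin.sum_univ_two, smul_eq_mul]
      simp [hp.1]
      ring
    show (1 / 2 : ℝ) * _ ≠ 0
    rw [e]
    refine mul_ne_zero (by norm_num) (mul_ne_zero (by positivity) (mul_ne_zero hl h2.ne'))

lemma exists_sol (lam E : ℝ) (n : ℕ) : ∀ a b c : ℝ, ∃ x : ℕ → ℝ, (∀ j, Lin lam E x j) ∧
    x n = a ∧ x (n + 1) = b ∧ x (n + 2) = c := by
  induction n with
  | zero =>
    intro a b c
    let f : ℕ → ℝ × ℝ × ℝ := fun n => Nat.rec (a, b, c) (fun j p =>
      (p.2.1, p.2.2, 2 * p.2.2 * tr lam (j + 1) E + 2 * tr lam (j + 2) E * p.2.1 - p.1)) n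
    exact ⟨fun n => (f n).1, fun j => rfl, rfl, rfl, rfl⟩
  | succ n ih =>
    intro a b c
    obtain ⟨x, h, h0, h1, h2⟩ := ih (2 * b * tr lam (n + 1) E + 2 * tr lam (n + 2) E * a - c) a b
    refine ⟨x, h, h1, h2, ?_⟩
    have := h n
    unfold Lin at this
    show x (n + 3) = c
    rw [this, h0, h1, h2]
    ring

lemma zero_of_zero (lam E : ℝ) (n : ℕ) (x : ℕ → ℝ) (h : ∀ j, j + 3 ≤ n → Lin lam E x j)
    (h0 : x 0 = 0) (h1 : x 1 = 0) (h2 : x 2 = 0) : ∀ j, j ≤ n → x j = 0 := by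
  apply ind3
  · exact fun _ => h0
  · exact fun _ => h1
  · exact fun _ => h2
  · intro j a b c hj
    have := h j hj
    unfold Lin at this
    rw [this, a (by omega), b (by omega), c (by omega)]
    ring

theorem sA : SA := by
  intro lam hl n hn E h1 h2
  obtain ⟨xi, hxi, xin, xi0⟩ := exists_xi lam E hl n hn
  obtain ⟨y, hy, yn, -, -⟩ := exists_sol lam E n 1 0 0
  set al := y 0 / xi 0 with hal
  set c := 2 * (y 1 - al * xi 1) with hc
  set d := -2 * (y 2 - al * xi 2 - c / 2) with hd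
  have key := zero_of_zero lam E n
    (fun j => y j - al * xi j - c * dE lam j E - d * dL lam j E) ?_ ?_ ?_ ?_ n le_rfl
  · simp only [yn, xin, h1, h2] at key
    norm_num at key
  · intro j hj
    have a1 := hxi j hj
    have a2 := hy j
    unfold Lin at a1 a2 ⊢
    simp only
    rw [a1, a2, dE_rec, dL_rec]
    ring
  · simp only [dE_zero, dL_zero]
    rw [hal]
    field_simp
    ring
  · simp only [dE_one, dL_one]
    rw [hc]
    ring
  · simp only [dE_two, dL_two]
    rw [hd]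
    ring

end Pool.Agent.W112.FM
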